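import Mathlib

/-!
# MP_68eddd_an: an increasing piecewise Moebius map whose attractor domain is disconnected

Negative answer to Q1, for a map with four branches on `[-1, 1]`.
-/

set_option autoImplicit false

open MeasureTheory Filter Topology Set

namespace Pool.Agent.Results.MP_68eddd_an.Disconnected

/-- The data of a piecewise Moebius map: the interval `[l, u]`, the subintervals
`[lo i, hi i]` and the matrices `(a b; c d)`. -/
structure Data (ι : Type) where
  l : ℝ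
  u : ℝ
  lo : ι → ℝ
  hi : ι → ℝ
  a : ι → ℝ
  b : ι → ℝ
  c : ι → ℝ
  d : ι → ℝ

namespace Data

variable {ι : Type} (D : Data ι)

/-- the interval `I` -/
def I : Set ℝ := Icc D.l D.u

/-- the interval `I_α` -/
def J (i : ι) : Set ℝ := Icc (D.lo i) (D.hi i)

/-- the branch `T_α(x) = (a x + b) / (c x + d)` -/
noncomputable def T (i : ι) (x : ℝ) : ℝ := (D.a i * x + D.b i) / (D.c i * x + D.d i)

/-- the planar branch `(x, y) ↦ (T_α(x), (c x + d)² y - c (c x + d))` -/
noncomputable def TT (i : ι) (p : ℝ × ℝ) : ℝ × ℝ :=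
  (D.T i p.1, (D.c i * p.1 + D.d i) ^ 2 * p.2 - D.c i * (D.c i * p.1 + D.d i))

/-- the conditions of the problem -/
structure IsAdmissible : Prop where
  countable : Countable ι
  nontrivial : D.l < D.u
  nontrivial' : ∀ i, D.lo i < D.hi i
  cover : ⋃ i, D.J i = D.I
  null : ∀ i j, i ≠ j → volume (D.J i ∩ D.J j) = 0
  det : ∀ i, D.a i * D.d i - D.b i * D.c i = 1
  c_nonneg : ∀ i, 0 ≤ D.c i
  isDefined : ∀ i, ∀ x ∈ D.J i, D.c i * x + D.d i ≠ 0
  mapsTo : ∀ i, ∀ x ∈ D.J i, D.T i x ∈ D.I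
  onto : ⋃ i, D.T i '' D.J i = D.I
  expansion : ∃ k : ℝ, k < 1 ∧ ∀ i, ∀ x ∈ D.J i, (D.c i * x + D.d i) ^ 2 ≤ k
  bounded : ∃ C : ℝ, ∀ i, ∀ x ∈ D.J i, |D.c i * (D.c i * x + D.d i)| ≤ C

/-- the image of `K` under the piecewise planar map: the union of the `T~_α(K_α)`, where `K_α` is
the part of `K` over `I_α` -/
def image (K : Set (ℝ × ℝ)) : Set (ℝ × ℝ) := ⋃ i, D.TT i '' (K ∩ (D.J i ×ˢ univ))

/-- `K` is a compact subset of `I × ℝ`, projects onto `I` and is the closure of its image -/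
structure IsAttractor (K : Set (ℝ × ℝ)) : Prop where
  compact : IsCompact K
  sub : K ⊆ D.I ×ˢ univ
  proj : Prod.fst '' K = D.I
  eq : K = closure (D.image K)

end Data

/-- The example: `(4x-2)/(3x+2)` on `[0,1/2]`, `(6x-3)/(4-x)` on `[1/2,1]`, extended to `[-1,1]`
as an odd function, i.e. `(4x+2)/(2-3x)` on `[-1/2,0]` and `(6x+3)/(x+4)` on `[-1,-1/2]`; the
matrices are normalised to determinant one with `c ≥ 0`. -/
noncomputable def ex : Data (Fin 4) where
  l := -1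
  u := 1
  lo := ![0, 1 / 2, -1 / 2, -1]
  hi := ![1 / 2, 1, 0, -1 / 2]
  a := ![4 / √14, -6 / √21, -4 / √14, 6 / √21]
  b := ![-2 / √14, 3 / √21, -2 / √14, 3 / √21]
  c := ![3 / √14, 1 / √21, 3 / √14, 1 / √21]
  d := ![2 / √14, -4 / √21, -2 / √14, 4 / √21]

lemma r14 : (0 : ℝ) < √14 := Real.sqrt_pos.2 (by norm_num)
lemma r21 : (0 : ℝ) < √21 := Real.sqrt_pos.2 (by norm_num)
lemma s14 : √14 ^ 2 = (14 : ℝ) := Real.sq_sqrt (by norm_num)
lemma s21 : √21 ^ 2 = (21 : ℝ) := Real.sq_sqrt (by norm_num)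

lemma J0 : ex.J 0 = Icc 0 (1 / 2) := rfl
lemma J1 : ex.J 1 = Icc (1 / 2) 1 := rfl
lemma J2 : ex.J 2 = Icc (-1 / 2) 0 := rfl
lemma J3 : ex.J 3 = Icc (-1) (-1 / 2) := rfl
lemma exI : ex.I = Icc (-1) 1 := rfl

lemma T0 (x : ℝ) : ex.T 0 x = (4 * x - 2) / (3 * x + 2) := by
  have h := r14.ne'
  change (4 / √14 * x + -2 / √14) / (3 / √14 * x + 2 / √14) = _
  rw [show 4 / √14 * x + -2 / √14 = (4 * x - 2) / √14 by ring,
    show 3 / √14 * x + 2 / √14 = (3 * x + 2) / √14 by ring, div_div_div_cancel_right₀ h]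

lemma T1 (x : ℝ) : ex.T 1 x = (6 * x - 3) / (4 - x) := by
  have h := r21.ne'
  change (-6 / √21 * x + 3 / √21) / (1 / √21 * x + -4 / √21) = _
  rw [show -6 / √21 * x + 3 / √21 = (-(6 * x - 3)) / √21 by ring,
    show 1 / √21 * x + -4 / √21 = (-(4 - x)) / √21 by ring, div_div_div_cancel_right₀ h,
    neg_div_neg_eq]

lemma T2 (x : ℝ) : ex.T 2 x = (4 * x + 2) / (2 - 3 * x) := by
  have h := r14.ne'
  change (-4 / √14 * x + -2 / √14) / (3 / √14 * x + -2 / √14) = _
  rw [show -4 / √14 * x + -2 / √14 = (-(4 * x + 2)) / √14 by ring,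
    show 3 / √14 * x + -2 / √14 = (-(2 - 3 * x)) / √14 by ring, div_div_div_cancel_right₀ h,
    neg_div_neg_eq]

lemma T3 (x : ℝ) : ex.T 3 x = (6 * x + 3) / (x + 4) := by
  have h := r21.ne'
  change (6 / √21 * x + 3 / √21) / (1 / √21 * x + 4 / √21) = _
  rw [show 6 / √21 * x + 3 / √21 = (6 * x + 3) / √21 by ring,
    show 1 / √21 * x + 4 / √21 = (x + 4) / √21 by ring, div_div_div_cancel_right₀ h]

lemma e14 (u y : ℝ) (s : ℝ) : (u / √14) ^ 2 * y - s / √14 * (u / √14) = (u ^ 2 * y - s * u) / 14 := by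
  have h := r14.ne'
  rw [div_pow, div_mul_div_comm, ← sq, s14]
  ring

lemma e21 (u y : ℝ) (s : ℝ) : (u / √21) ^ 2 * y - s / √21 * (u / √21) = (u ^ 2 * y - s * u) / 21 := by
  have h := r21.ne'
  rw [div_pow, div_mul_div_comm, ← sq, s21]
  ring

lemma TT0 (p : ℝ × ℝ) : ex.TT 0 p = ((4 * p.1 - 2) / (3 * p.1 + 2),
    ((3 * p.1 + 2) ^ 2 * p.2 - 3 * (3 * p.1 + 2)) / 14) := by
  refine Prod.ext (T0 _) ?_
  change (3 / √14 * p.1 + 2 / √14) ^ 2 * p.2 - 3 / √14 * (3 / √14 * p.1 + 2 / √14) = _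
  rw [show 3 / √14 * p.1 + 2 / √14 = (3 * p.1 + 2) / √14 by ring, e14]

lemma TT1 (p : ℝ × ℝ) : ex.TT 1 p = ((6 * p.1 - 3) / (4 - p.1),
    ((4 - p.1) ^ 2 * p.2 + (4 - p.1)) / 21) := by
  refine Prod.ext (T1 _) ?_
  change (1 / √21 * p.1 + -4 / √21) ^ 2 * p.2 - 1 / √21 * (1 / √21 * p.1 + -4 / √21) = _
  rw [show 1 / √21 * p.1 + -4 / √21 = (p.1 - 4) / √21 by ring, e21]
  ring

lemma TT2 (p : ℝ × ℝ) : ex.TT 2 p = ((4 * p.1 + 2) / (2 - 3 * p.1),
    ((2 - 3 * p.1) ^ 2 * p.2 + 3 * (2 - 3 * p.1)) / 14) := by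
  refine Prod.ext (T2 _) ?_
  change (3 / √14 * p.1 + -2 / √14) ^ 2 * p.2 - 3 / √14 * (3 / √14 * p.1 + -2 / √14) = _
  rw [show 3 / √14 * p.1 + -2 / √14 = (3 * p.1 - 2) / √14 by ring, e14]
  ring

lemma TT3 (p : ℝ × ℝ) : ex.TT 3 p = ((6 * p.1 + 3) / (p.1 + 4),
    ((p.1 + 4) ^ 2 * p.2 - (p.1 + 4)) / 21) := by
  refine Prod.ext (T3 _) ?_
  change (1 / √21 * p.1 + 4 / √21) ^ 2 * p.2 - 1 / √21 * (1 / √21 * p.1 + 4 / √21) = _
  rw [show 1 / √21 * p.1 + 4 / √21 = (p.1 + 4) / √21 by ring, e21]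
  ring

lemma im0 : ex.T 0 '' Icc 0 (1 / 2) = Icc (-1) 0 := by
  ext z
  simp only [mem_image, mem_Icc, T0]
  constructor
  · rintro ⟨x, ⟨h1, h2⟩, rfl⟩
    constructor
    · rw [le_div_iff₀ (by linarith)]; linarith
    · rw [div_le_iff₀ (by linarith)]; linarith
  · rintro ⟨h1, h2⟩
    have h3 : 0 < 4 - 3 * z := by linarith
    have h4 : 4 - 3 * z ≠ 0 := h3.ne'
    refine ⟨(2 * z + 2) / (4 - 3 * z), ⟨?_, ?_⟩, ?_⟩
    · apply div_nonneg <;> linarith
    · rw [div_le_iff₀ h3]; linarith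
    · have e1 : 3 * ((2 * z + 2) / (4 - 3 * z)) + 2 = 14 / (4 - 3 * z) := by
        rw [eq_div_iff h4]
        have := div_mul_cancel₀ (2 * z + 2) h4
        linear_combination 3 * this
      have e2 : 4 * ((2 * z + 2) / (4 - 3 * z)) - 2 = z * (14 / (4 - 3 * z)) := by
        rw [show z * (14 / (4 - 3 * z)) = z * 14 / (4 - 3 * z) by ring, eq_div_iff h4]
        have := div_mul_cancel₀ (2 * z + 2) h4
        linear_combination 4 * this
      have h5 : 14 / (4 - 3 * z) ≠ 0 := by positivity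
      rw [e1, e2, mul_div_assoc, div_self h5, mul_one]

lemma im1 : ex.T 1 '' Icc (1 / 2) 1 = Icc 0 1 := by
  ext z
  simp only [mem_image, mem_Icc, T1]
  constructor
  · rintro ⟨x, ⟨h1, h2⟩, rfl⟩
    constructor
    · apply div_nonneg <;> linarith
    · rw [div_le_iff₀ (by linarith)]; linarith
  · rintro ⟨h1, h2⟩
    have h3 : 0 < z + 6 := by linarith
    refine ⟨(4 * z + 3) / (z + 6), ⟨?_, ?_⟩, ?_⟩
    · rw [le_div_iff₀ h3]; linarith
    · rw [div_le_iff₀ h3]; linarith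
    · rw [div_eq_iff]
      · field_simp; ring
      · have : 4 - (4 * z + 3) / (z + 6) = 21 / (z + 6) := by field_simp; ring
        rw [this]; positivity

lemma im2 : ex.T 2 '' Icc (-1 / 2) 0 = Icc 0 1 := by
  ext z
  simp only [mem_image, mem_Icc, T2]
  constructor
  · rintro ⟨x, ⟨h1, h2⟩, rfl⟩
    constructor
    · apply div_nonneg <;> linarith
    · rw [div_le_iff₀ (by linarith)]; linarith
  · rintro ⟨h1, h2⟩
    have h3 : 0 < 4 + 3 * z := by linarith
    refine ⟨(2 * z - 2) / (4 + 3 * z), ⟨?_, ?_⟩, ?_⟩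
    · rw [le_div_iff₀ h3]; linarith
    · rw [div_le_iff₀ h3]; linarith
    · rw [div_eq_iff]
      · field_simp; ring
      · have : 2 - 3 * ((2 * z - 2) / (4 + 3 * z)) = 14 / (4 + 3 * z) := by field_simp; ring
        rw [this]; positivity

lemma im3 : ex.T 3 '' Icc (-1) (-1 / 2) = Icc (-1) 0 := by
  ext z
  simp only [mem_image, mem_Icc, T3]
  constructor
  · rintro ⟨x, ⟨h1, h2⟩, rfl⟩
    constructor
    · rw [le_div_iff₀ (by linarith)]; linarith
    · rw [div_le_iff₀ (by linarith)]; linarith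
  · rintro ⟨h1, h2⟩
    have h3 : 0 < 6 - z := by linarith
    refine ⟨(4 * z - 3) / (6 - z), ⟨?_, ?_⟩, ?_⟩
    · rw [le_div_iff₀ h3]; linarith
    · rw [div_le_iff₀ h3]; linarith
    · rw [div_eq_iff]
      · field_simp; ring
      · have : (4 * z - 3) / (6 - z) + 4 = 21 / (6 - z) := by field_simp; ring
        rw [this]; positivity

lemma cd0 (x : ℝ) : ex.c 0 * x + ex.d 0 = (3 * x + 2) / √14 := by
  change 3 / √14 * x + 2 / √14 = _
  ring
lemma cd1 (x : ℝ) : ex.c 1 * x + ex.d 1 = (x - 4) / √21 := by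
  change 1 / √21 * x + -4 / √21 = _
  ring
lemma cd2 (x : ℝ) : ex.c 2 * x + ex.d 2 = (3 * x - 2) / √14 := by
  change 3 / √14 * x + -2 / √14 = _
  ring
lemma cd3 (x : ℝ) : ex.c 3 * x + ex.d 3 = (x + 4) / √21 := by
  change 1 / √21 * x + 4 / √21 = _
  ring

lemma exp_bound : ∀ i, ∀ x ∈ ex.J i, (ex.c i * x + ex.d i) ^ 2 ≤ 7 / 8 := by
  intro i x hx
  fin_cases i
  · change (ex.c 0 * x + ex.d 0) ^ 2 ≤ 7 / 8
    rw [cd0, div_pow, s14, div_le_iff₀ (by norm_num)]
    obtain ⟨h1, h2⟩ : 0 ≤ x ∧ x ≤ 1 / 2 := hx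
    nlinarith
  · change (ex.c 1 * x + ex.d 1) ^ 2 ≤ 7 / 8
    rw [cd1, div_pow, s21, div_le_iff₀ (by norm_num)]
    obtain ⟨h1, h2⟩ : 1 / 2 ≤ x ∧ x ≤ 1 := hx
    nlinarith
  · change (ex.c 2 * x + ex.d 2) ^ 2 ≤ 7 / 8
    rw [cd2, div_pow, s14, div_le_iff₀ (by norm_num)]
    obtain ⟨h1, h2⟩ : -1 / 2 ≤ x ∧ x ≤ 0 := hx
    nlinarith
  · change (ex.c 3 * x + ex.d 3) ^ 2 ≤ 7 / 8
    rw [cd3, div_pow, s21, div_le_iff₀ (by norm_num)]
    obtain ⟨h1, h2⟩ : -1 ≤ x ∧ x ≤ -1 / 2 := hx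
    nlinarith

lemma cd_ne : ∀ i, ∀ x ∈ ex.J i, ex.c i * x + ex.d i ≠ 0 := by
  intro i x hx
  fin_cases i
  · change ex.c 0 * x + ex.d 0 ≠ 0
    rw [cd0]
    obtain ⟨h1, h2⟩ : 0 ≤ x ∧ x ≤ 1 / 2 := hx
    exact div_ne_zero (by linarith) r14.ne'
  · change ex.c 1 * x + ex.d 1 ≠ 0
    rw [cd1]
    obtain ⟨h1, h2⟩ : 1 / 2 ≤ x ∧ x ≤ 1 := hx
    exact div_ne_zero (by linarith) r21.ne'
  · change ex.c 2 * x + ex.d 2 ≠ 0
    rw [cd2]
    obtain ⟨h1, h2⟩ : -1 / 2 ≤ x ∧ x ≤ 0 := hx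
    exact div_ne_zero (by linarith) r14.ne'
  · change ex.c 3 * x + ex.d 3 ≠ 0
    rw [cd3]
    obtain ⟨h1, h2⟩ : -1 ≤ x ∧ x ≤ -1 / 2 := hx
    exact div_ne_zero (by linarith) r21.ne'

lemma union4 {α : Type} (s : Fin 4 → Set α) : ⋃ i, s i = s 0 ∪ s 1 ∪ s 2 ∪ s 3 := by
  ext x
  simp only [mem_iUnion, Fin.exists_fin_succ, mem_union]
  simp
  tauto

lemma im_all : ∀ i, ex.T i '' ex.J i = Icc (-1) 0 ∨ ex.T i '' ex.J i = Icc 0 1 := by
  intro i
  fin_cases i
  · exact Or.inl im0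
  · exact Or.inr im1
  · exact Or.inr im2
  · exact Or.inl im3

theorem ex_admissible : ex.IsAdmissible where
  countable := inferInstance
  nontrivial := by change (-1 : ℝ) < 1; norm_num
  nontrivial' := by
    intro i
    fin_cases i
    · change (0 : ℝ) < 1 / 2; norm_num
    · change (1 / 2 : ℝ) < 1; norm_num
    · change (-1 / 2 : ℝ) < 0; norm_num
    · change (-1 : ℝ) < -1 / 2; norm_num
  cover := by
    rw [union4, J0, J1, J2, J3, exI]
    ext x
    simp only [mem_union, mem_Icc]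
    constructor
    · rintro (((⟨h1, h2⟩ | ⟨h1, h2⟩) | ⟨h1, h2⟩) | ⟨h1, h2⟩) <;> constructor <;> linarith
    · rintro ⟨h1, h2⟩
      rcases le_total x 0 with h | h
      · rcases le_total x (-1 / 2) with h' | h'
        · right; exact ⟨h1, h'⟩
        · left; right; exact ⟨h', h⟩
      · rcases le_total x (1 / 2) with h' | h'
        · left; left; left; exact ⟨h, h'⟩
        · left; left; right; exact ⟨h', h2⟩
  null := by
    have key : ∀ i j : Fin 4, i < j → volume (ex.J i ∩ ex.J j) = 0 := by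
      have hpt : ∀ (s : Set ℝ) (p : ℝ), s ⊆ {p} → volume s = 0 := fun s p hs =>
        measure_mono_null hs (by simp)
      intro i j hij
      have hcases : (i = 0 ∧ j = 1) ∨ (i = 0 ∧ j = 2) ∨ (i = 0 ∧ j = 3) ∨ (i = 1 ∧ j = 2) ∨
          (i = 1 ∧ j = 3) ∨ (i = 2 ∧ j = 3) := by
        revert i j; decide
      rcases hcases with ⟨rfl, rfl⟩ | ⟨rfl, rfl⟩ | ⟨rfl, rfl⟩ | ⟨rfl, rfl⟩ | ⟨rfl, rfl⟩ | ⟨rfl, rfl⟩
      · apply hpt _ (1 / 2)
        rintro x ⟨⟨h1, h2⟩, ⟨h3, h4⟩⟩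
        exact le_antisymm h2 h3
      · apply hpt _ 0
        rintro x ⟨⟨h1, h2⟩, ⟨h3, h4⟩⟩
        exact le_antisymm h4 h1
      · apply hpt _ 0
        rintro x ⟨⟨h1, h2⟩, ⟨h3, h4⟩⟩
        change 0 ≤ x at h1
        change x ≤ -1 / 2 at h4
        linarith
      · apply hpt _ 0
        rintro x ⟨⟨h1, h2⟩, ⟨h3, h4⟩⟩
        change 1 / 2 ≤ x at h1
        change x ≤ 0 at h4
        linarith
      · apply hpt _ 0
        rintro x ⟨⟨h1, h2⟩, ⟨h3, h4⟩⟩
        change 1 / 2 ≤ x at h1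
        change x ≤ -1 / 2 at h4
        linarith
      · apply hpt _ (-1 / 2)
        rintro x ⟨⟨h1, h2⟩, ⟨h3, h4⟩⟩
        exact le_antisymm h4 h1
    intro i j hij
    rcases lt_or_gt_of_ne hij with h | h
    · exact key i j h
    · rw [inter_comm]; exact key j i h
  det := by
    intro i
    have h1 := s14
    have h2 := s21
    have h3 := r14.ne'
    have h4 := r21.ne'
    fin_cases i
    · change 4 / √14 * (2 / √14) - -2 / √14 * (3 / √14) = 1
      field_simp; rw [h1]; norm_num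
    · change -6 / √21 * (-4 / √21) - 3 / √21 * (1 / √21) = 1
      field_simp; rw [h2]; norm_num
    · change -4 / √14 * (-2 / √14) - -2 / √14 * (3 / √14) = 1
      field_simp; rw [h1]; norm_num
    · change 6 / √21 * (4 / √21) - 3 / √21 * (1 / √21) = 1
      field_simp; rw [h2]; norm_num
  c_nonneg := by
    intro i
    have h3 := r14
    have h4 := r21
    fin_cases i
    · change 0 ≤ 3 / √14; positivity
    · change 0 ≤ 1 / √21; positivity
    · change 0 ≤ 3 / √14; positivity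
    · change 0 ≤ 1 / √21; positivity
  isDefined := cd_ne
  mapsTo := by
    intro i x hx
    have h : ex.T i x ∈ ex.T i '' ex.J i := mem_image_of_mem _ hx
    rcases im_all i with h1 | h1 <;> rw [h1] at h <;> rw [exI] <;> constructor <;>
      linarith [h.1, h.2]
  onto := by
    rw [union4, J0, J1, J2, J3, im0, im1, im2, im3, exI]
    ext x
    simp only [mem_union, mem_Icc]
    constructor
    · rintro (((⟨h1, h2⟩ | ⟨h1, h2⟩) | ⟨h1, h2⟩) | ⟨h1, h2⟩) <;> constructor <;> linarith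
    · rintro ⟨h1, h2⟩
      rcases le_total x 0 with h | h
      · right; exact ⟨h1, h⟩
      · left; left; right; exact ⟨h, h2⟩
  expansion := ⟨7 / 8, by norm_num, exp_bound⟩
  bounded := by
    refine ⟨3, fun i x hx => ?_⟩
    have h1 := exp_bound i x hx
    have h2 : |ex.c i * x + ex.d i| ≤ 1 := by
      rw [← sq_le_one_iff_abs_le_one]; linarith
    have h14 : (1 : ℝ) ≤ √14 := Real.one_le_sqrt.2 (by norm_num)
    have h21 : (1 : ℝ) ≤ √21 := Real.one_le_sqrt.2 (by norm_num)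
    have h3 : |ex.c i| ≤ 3 := by
      have g1 : |3 / √14| ≤ 3 := by
        rw [abs_of_pos (by positivity), div_le_iff₀ r14]; linarith
      have g2 : |1 / √21| ≤ 3 := by
        rw [abs_of_pos (by positivity), div_le_iff₀ r21]; linarith
      fin_cases i
      · exact g1
      · exact g2
      · exact g1
      · exact g2
    rw [abs_mul]
    calc |ex.c i| * |ex.c i * x + ex.d i| ≤ 3 * 1 :=
          mul_le_mul h3 h2 (abs_nonneg _) (by norm_num)
      _ = 3 := by norm_num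

/-- Comparison: a set with bounded fibres, each of whose points has a preimage in the set, is
contained in every closed set which is mapped into itself and has points over each point of `I`. -/
lemma comparison {E F : Set (ℝ × ℝ)} {C : ℝ} (hE : E ⊆ ex.image E) (hEI : ∀ p ∈ E, p.1 ∈ ex.I)
    (hEb : ∀ p ∈ E, |p.2| ≤ C)
    (hF : IsClosed F) (hFF : ex.image F ⊆ F) (hFp : ∀ x ∈ ex.I, ∃ y : ℝ, (x, y) ∈ F ∧ |y| ≤ C) :
    E ⊆ F := by
  have key : ∀ n : ℕ, ∀ p ∈ E, ∃ y : ℝ, (p.1, y) ∈ F ∧ |p.2 - y| ≤ (7 / 8) ^ n * (2 * C) := by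
    intro n
    induction n with
    | zero =>
      intro p hp
      obtain ⟨y, hy, hyC⟩ := hFp p.1 (hEI p hp)
      refine ⟨y, hy, ?_⟩
      have := hEb p hp
      rw [pow_zero, one_mul]
      refine (abs_sub _ _).trans ?_
      linarith
    | succ n ih =>
      intro p hp
      obtain ⟨i, hi⟩ := mem_iUnion.1 (hE hp)
      obtain ⟨q, ⟨hqE, hqJ⟩, rfl⟩ := hi
      obtain ⟨y, hy, hyn⟩ := ih q hqE
      have hqJ' : q.1 ∈ ex.J i := hqJ.1
      refine ⟨(ex.TT i (q.1, y)).2, ?_, ?_⟩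
      · apply hFF
        refine mem_iUnion.2 ⟨i, (q.1, y), ⟨hy, hqJ', mem_univ _⟩, rfl⟩
      · have e : (ex.TT i q).2 - (ex.TT i (q.1, y)).2 =
            (ex.c i * q.1 + ex.d i) ^ 2 * (q.2 - y) := by
          simp only [Data.TT]
          ring
        rw [e, abs_mul, abs_of_nonneg (sq_nonneg _), pow_succ (7 / 8 : ℝ) n, mul_comm ((7 / 8 : ℝ) ^ n),
          mul_assoc]
        exact mul_le_mul (exp_bound i _ hqJ') hyn (abs_nonneg _) (by norm_num)
  intro p hp
  rw [← hF.closure_eq, Metric.mem_closure_iff]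
  intro ε hε
  have hlim : Tendsto (fun n : ℕ => (7 / 8 : ℝ) ^ n * (2 * C)) atTop (𝓝 (0 * (2 * C))) :=
    (tendsto_pow_atTop_nhds_zero_of_lt_one (by norm_num) (by norm_num)).mul_const _
  rw [zero_mul] at hlim
  obtain ⟨n, hn⟩ := (hlim.eventually (gt_mem_nhds hε)).exists
  obtain ⟨y, hy, hyn⟩ := key n p hp
  refine ⟨(p.1, y), hy, ?_⟩
  rw [Prod.dist_eq]
  simp only [dist_self]
  rw [max_lt_iff]
  exact ⟨hε, by rw [Real.dist_eq]; exact hyn.trans_lt hn⟩

/-- the region which traps the attractor: `y ∈ [1/5, 3/5]` for `x ≥ 0`, `y ∈ [-3/5, -1/5]` for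
`x ≤ 0` -/
def R : Set (ℝ × ℝ) :=
  (Icc 0 1 ×ˢ Icc (1 / 5) (3 / 5)) ∪ (Icc (-1) 0 ×ˢ Icc (-3 / 5) (-1 / 5))

lemma R_compact : IsCompact R :=
  (isCompact_Icc.prod isCompact_Icc).union (isCompact_Icc.prod isCompact_Icc)

lemma mem_R {x y : ℝ} : (x, y) ∈ R ↔ ((0 ≤ x ∧ x ≤ 1) ∧ 1 / 5 ≤ y ∧ y ≤ 3 / 5) ∨
    ((-1 ≤ x ∧ x ≤ 0) ∧ -3 / 5 ≤ y ∧ y ≤ -1 / 5) := Iff.rfl

lemma image_iff {K : Set (ℝ × ℝ)} {p : ℝ × ℝ} :
    p ∈ ex.image K ↔ ∃ i, ∃ q ∈ K, q.1 ∈ ex.J i ∧ ex.TT i q = p := by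
  simp only [Data.image, mem_iUnion, mem_image, mem_inter_iff, mem_prod, mem_univ, and_true,
    and_assoc]

lemma R_invariant : ex.image R ⊆ R := by
  intro p hp
  obtain ⟨i, q, hq, hqJ, rfl⟩ := image_iff.1 hp
  obtain ⟨x, y⟩ := q
  have hT : ex.T i x ∈ ex.T i '' ex.J i := mem_image_of_mem _ hqJ
  rw [mem_R] at hq
  fin_cases i
  · change ex.T 0 x ∈ ex.T 0 '' ex.J 0 at hT
    rw [J0, im0] at hT
    obtain ⟨h1, h2⟩ : 0 ≤ x ∧ x ≤ 1 / 2 := hqJ
    change ex.TT 0 (x, y) ∈ R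
    have e : ex.TT 0 (x, y) = (ex.T 0 x, ((3 * x + 2) ^ 2 * y - 3 * (3 * x + 2)) / 14) := by
      rw [TT0, T0]
    rw [e, mem_R]
    right
    refine ⟨hT, ?_⟩
    rcases hq with ⟨-, h3, h4⟩ | ⟨⟨-, h5⟩, h3, h4⟩
    · constructor
      · rw [le_div_iff₀ (by norm_num)]; nlinarith [mul_nonneg h1 (sub_nonneg.2 h2), sq_nonneg (3 * x + 2)]
      · rw [div_le_iff₀ (by norm_num)]; nlinarith [mul_nonneg h1 (sub_nonneg.2 h2), sq_nonneg (3 * x + 2)]
    · have hx : x = 0 := le_antisymm h5 h1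
      subst hx
      constructor
      · rw [le_div_iff₀ (by norm_num)]; linarith
      · rw [div_le_iff₀ (by norm_num)]; linarith
  · change ex.T 1 x ∈ ex.T 1 '' ex.J 1 at hT
    rw [J1, im1] at hT
    obtain ⟨h1, h2⟩ : 1 / 2 ≤ x ∧ x ≤ 1 := hqJ
    change ex.TT 1 (x, y) ∈ R
    have e : ex.TT 1 (x, y) = (ex.T 1 x, ((4 - x) ^ 2 * y + (4 - x)) / 21) := by
      rw [TT1, T1]
    rw [e, mem_R]
    left
    refine ⟨hT, ?_⟩
    rcases hq with ⟨-, h3, h4⟩ | ⟨⟨-, h5⟩, h3, h4⟩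
    · constructor
      · rw [le_div_iff₀ (by norm_num)]; nlinarith [sq_nonneg (4 - x)]
      · rw [div_le_iff₀ (by norm_num)]; nlinarith [sq_nonneg (4 - x)]
    · linarith
  · change ex.T 2 x ∈ ex.T 2 '' ex.J 2 at hT
    rw [J2, im2] at hT
    obtain ⟨h1, h2⟩ : -1 / 2 ≤ x ∧ x ≤ 0 := hqJ
    change ex.TT 2 (x, y) ∈ R
    have e : ex.TT 2 (x, y) = (ex.T 2 x, ((2 - 3 * x) ^ 2 * y + 3 * (2 - 3 * x)) / 14) := by
      rw [TT2, T2]
    rw [e, mem_R]
    left
    refine ⟨hT, ?_⟩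
    rcases hq with ⟨⟨h5, -⟩, h3, h4⟩ | ⟨-, h3, h4⟩
    · have hx : x = 0 := le_antisymm h2 h5
      subst hx
      constructor
      · rw [le_div_iff₀ (by norm_num)]; linarith
      · rw [div_le_iff₀ (by norm_num)]; linarith
    · constructor
      · rw [le_div_iff₀ (by norm_num)]; nlinarith [sq_nonneg (2 - 3 * x)]
      · rw [div_le_iff₀ (by norm_num)]; nlinarith [sq_nonneg (2 - 3 * x)]
  · change ex.T 3 x ∈ ex.T 3 '' ex.J 3 at hT
    rw [J3, im3] at hT
    obtain ⟨h1, h2⟩ : -1 ≤ x ∧ x ≤ -1 / 2 := hqJ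
    change ex.TT 3 (x, y) ∈ R
    have e : ex.TT 3 (x, y) = (ex.T 3 x, ((x + 4) ^ 2 * y - (x + 4)) / 21) := by
      rw [TT3, T3]
    rw [e, mem_R]
    right
    refine ⟨hT, ?_⟩
    rcases hq with ⟨⟨h5, -⟩, h3, h4⟩ | ⟨-, h3, h4⟩
    · linarith
    · constructor
      · rw [le_div_iff₀ (by norm_num)]; nlinarith [sq_nonneg (x + 4)]
      · rw [div_le_iff₀ (by norm_num)]; nlinarith [sq_nonneg (x + 4)]

/-- the two-dimensional part of the attractor over `[0, 1]`, and its mirror image -/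
def K0 : Set (ℝ × ℝ) :=
  {p | (0 ≤ p.1 ∧ p.1 ≤ 1) ∧ 1 ≤ p.2 * (p.1 + 3) ∧ p.2 * (p.1 + 2) ≤ 1} ∪
  {p | (-1 ≤ p.1 ∧ p.1 ≤ 0) ∧ 1 ≤ -p.2 * (-p.1 + 3) ∧ -p.2 * (-p.1 + 2) ≤ 1}

lemma K0_R : K0 ⊆ R := by
  rintro ⟨x, y⟩ (⟨⟨h1, h2⟩, h3, h4⟩ | ⟨⟨h1, h2⟩, h3, h4⟩)
  · simp only at h1 h2 h3 h4
    left
    have hy : 0 < y := by
      by_contra hcon
      push Not at hcon
      nlinarith
    refine ⟨⟨h1, h2⟩, ?_, ?_⟩
    · simp only; nlinarith
    · simp only; nlinarith
  · simp only at h1 h2 h3 h4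
    right
    have hy : 0 < -y := by
      by_contra hcon
      push Not at hcon
      nlinarith
    refine ⟨⟨h1, h2⟩, ?_, ?_⟩
    · simp only; nlinarith
    · simp only; nlinarith

lemma K0_sub : K0 ⊆ ex.image K0 := by
  rintro ⟨x, y⟩ (⟨⟨h1, h2⟩, h3, h4⟩ | ⟨⟨h1, h2⟩, h3, h4⟩)
  · simp only at h1 h2 h3 h4
    have hy : 0 < y := by
      by_contra hcon
      push Not at hcon
      nlinarith
    rw [image_iff]
    rcases le_total (y * (2 * x + 5)) 2 with h | h
    · -- branch 1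
      have g : 0 < x + 6 := by linarith
      refine ⟨1, ((4 * x + 3) / (x + 6), (x + 6) * ((x + 6) * y - 1) / 21), ?_, ?_, ?_⟩
      · left
        refine ⟨⟨?_, ?_⟩, ?_, ?_⟩
        · simp only; positivity
        · simp only; rw [div_le_iff₀ g]; linarith
        · simp only
          have e : (x + 6) * ((x + 6) * y - 1) / 21 * ((4 * x + 3) / (x + 6) + 3) =
              ((x + 6) * y - 1) * (x + 3) / 3 := by field_simp; ring
          rw [e, le_div_iff₀ (by norm_num)]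
          nlinarith
        · simp only
          have e : (x + 6) * ((x + 6) * y - 1) / 21 * ((4 * x + 3) / (x + 6) + 2) =
              ((x + 6) * y - 1) * (2 * x + 5) / 7 := by field_simp; ring
          rw [e, div_le_iff₀ (by norm_num)]
          nlinarith
      · rw [J1]
        constructor
        · simp only; rw [le_div_iff₀ g]; linarith
        · simp only; rw [div_le_iff₀ g]; linarith
      · rw [TT1]
        have e4 : 4 - (4 * x + 3) / (x + 6) = 21 / (x + 6) := by field_simp; ring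
        refine Prod.ext ?_ ?_
        · simp only
          rw [e4]
          field_simp
          ring
        · simp only
          rw [e4]
          field_simp
          ring
    · -- branch 2
      have g : 0 < 4 + 3 * x := by linarith
      refine ⟨2, ((2 * x - 2) / (4 + 3 * x), (4 + 3 * x) * ((4 + 3 * x) * y - 3) / 14), ?_, ?_, ?_⟩
      · right
        refine ⟨⟨?_, ?_⟩, ?_, ?_⟩
        · simp only; rw [le_div_iff₀ g]; linarith
        · simp only; rw [div_le_iff₀ g]; linarith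
        · simp only
          have e : -((4 + 3 * x) * ((4 + 3 * x) * y - 3) / 14) * (-((2 * x - 2) / (4 + 3 * x)) + 3) =
              (3 - (4 + 3 * x) * y) * (x + 2) / 2 := by field_simp; ring
          rw [e, le_div_iff₀ (by norm_num)]
          nlinarith
        · simp only
          have e : -((4 + 3 * x) * ((4 + 3 * x) * y - 3) / 14) * (-((2 * x - 2) / (4 + 3 * x)) + 2) =
              (3 - (4 + 3 * x) * y) * (2 * x + 5) / 7 := by field_simp; ring
          rw [e, div_le_iff₀ (by norm_num)]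
          nlinarith
      · rw [J2]
        constructor
        · simp only; rw [le_div_iff₀ g]; linarith
        · simp only; rw [div_le_iff₀ g]; linarith
      · rw [TT2]
        have e4 : 2 - 3 * ((2 * x - 2) / (4 + 3 * x)) = 14 / (4 + 3 * x) := by field_simp; ring
        refine Prod.ext ?_ ?_
        · simp only
          rw [e4]
          field_simp
          ring
        · simp only
          rw [e4]
          field_simp
          ring
  · simp only at h1 h2 h3 h4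
    have hy : 0 < -y := by
      by_contra hcon
      push Not at hcon
      nlinarith
    rw [image_iff]
    rcases le_total (-y * (-(2 * x) + 5)) 2 with h | h
    · -- branch 3
      have g : 0 < 6 - x := by linarith
      refine ⟨3, ((4 * x - 3) / (6 - x), (6 - x) * ((6 - x) * y + 1) / 21), ?_, ?_, ?_⟩
      · right
        refine ⟨⟨?_, ?_⟩, ?_, ?_⟩
        · simp only; rw [le_div_iff₀ g]; linarith
        · simp only; rw [div_le_iff₀ g]; linarith
        · simp only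
          have e : -((6 - x) * ((6 - x) * y + 1) / 21) * (-((4 * x - 3) / (6 - x)) + 3) =
              ((6 - x) * -y - 1) * (3 - x) / 3 := by field_simp; ring
          rw [e, le_div_iff₀ (by norm_num)]
          nlinarith
        · simp only
          have e : -((6 - x) * ((6 - x) * y + 1) / 21) * (-((4 * x - 3) / (6 - x)) + 2) =
              ((6 - x) * -y - 1) * (5 - 2 * x) / 7 := by field_simp; ring
          rw [e, div_le_iff₀ (by norm_num)]
          nlinarith
      · rw [J3]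
        constructor
        · simp only; rw [le_div_iff₀ g]; linarith
        · simp only; rw [div_le_iff₀ g]; linarith
      · rw [TT3]
        have e4 : (4 * x - 3) / (6 - x) + 4 = 21 / (6 - x) := by field_simp; ring
        refine Prod.ext ?_ ?_
        · simp only
          rw [e4]
          field_simp
          ring
        · simp only
          rw [e4]
          field_simp
          ring
    · -- branch 0
      have g : 0 < 4 - 3 * x := by linarith
      have g' : 4 - 3 * x ≠ 0 := g.ne'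
      refine ⟨0, ((2 * x + 2) / (4 - 3 * x), (4 - 3 * x) * ((4 - 3 * x) * y + 3) / 14), ?_, ?_, ?_⟩
      · left
        refine ⟨⟨?_, ?_⟩, ?_, ?_⟩
        · simp only; apply div_nonneg <;> linarith
        · simp only; rw [div_le_iff₀ g]; linarith
        · simp only
          have e : (4 - 3 * x) * ((4 - 3 * x) * y + 3) / 14 * ((2 * x + 2) / (4 - 3 * x) + 3) =
              (3 - (4 - 3 * x) * -y) * (2 - x) / 2 := by field_simp; ring
          rw [e, le_div_iff₀ (by norm_num)]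
          nlinarith
        · simp only
          have e : (4 - 3 * x) * ((4 - 3 * x) * y + 3) / 14 * ((2 * x + 2) / (4 - 3 * x) + 2) =
              (3 - (4 - 3 * x) * -y) * (5 - 2 * x) / 7 := by field_simp; ring
          rw [e, div_le_iff₀ (by norm_num)]
          nlinarith
      · rw [J0]
        constructor
        · simp only; apply div_nonneg <;> linarith
        · simp only; rw [div_le_iff₀ g]; linarith
      · rw [TT0]
        have e4 : 3 * ((2 * x + 2) / (4 - 3 * x)) + 2 = 14 / (4 - 3 * x) := by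
          rw [eq_div_iff g']
          have := div_mul_cancel₀ (2 * x + 2) g'
          linear_combination 3 * this
        have e5 : 4 * ((2 * x + 2) / (4 - 3 * x)) - 2 = x * (14 / (4 - 3 * x)) := by
          rw [show x * (14 / (4 - 3 * x)) = x * 14 / (4 - 3 * x) by ring, eq_div_iff g']
          have := div_mul_cancel₀ (2 * x + 2) g'
          linear_combination 4 * this
        have h5 : 14 / (4 - 3 * x) ≠ 0 := by positivity
        refine Prod.ext ?_ ?_
        · simp only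
          rw [e4, e5, mul_div_assoc, div_self h5, mul_one]
        · simp only
          rw [e4]
          field_simp
          ring

lemma image_mono {E F : Set (ℝ × ℝ)} (h : E ⊆ F) : ex.image E ⊆ ex.image F := by
  intro p hp
  rw [image_iff] at hp ⊢
  obtain ⟨i, q, hq, h1, h2⟩ := hp
  exact ⟨i, q, h hq, h1, h2⟩

lemma TT_injOn (i : Fin 4) {p q : ℝ × ℝ} (hp : p.1 ∈ ex.J i) (hq : q.1 ∈ ex.J i)
    (h : ex.TT i p = ex.TT i q) : p = q := by
  obtain ⟨x, y⟩ := p
  obtain ⟨x', y'⟩ := q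
  have hx := cd_ne i x hp
  have hx' := cd_ne i x' hq
  have hdet := ex_admissible.det i
  have h1 : (ex.a i * x + ex.b i) / (ex.c i * x + ex.d i) =
      (ex.a i * x' + ex.b i) / (ex.c i * x' + ex.d i) := congrArg Prod.fst h
  have h2 : (ex.c i * x + ex.d i) ^ 2 * y - ex.c i * (ex.c i * x + ex.d i) =
      (ex.c i * x' + ex.d i) ^ 2 * y' - ex.c i * (ex.c i * x' + ex.d i) := congrArg Prod.snd h
  rw [div_eq_div_iff hx hx'] at h1
  have h3 : x = x' := by
    have : (ex.a i * ex.d i - ex.b i * ex.c i) * (x - x') = 0 := by linear_combination h1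
    rw [hdet, one_mul] at this
    linarith
  subst h3
  have h4 : (ex.c i * x + ex.d i) ^ 2 * y = (ex.c i * x + ex.d i) ^ 2 * y' := by linarith
  have h5 := mul_left_cancel₀ (pow_ne_zero 2 hx) h4
  rw [h5]

lemma TT_continuousOn (i : Fin 4) : ContinuousOn (ex.TT i) (ex.J i ×ˢ univ) := by
  unfold Data.TT Data.T
  refine ContinuousOn.prodMk (ContinuousOn.div ?_ ?_ ?_) ?_
  · fun_prop
  · fun_prop
  · rintro ⟨x, y⟩ ⟨hx, -⟩
    exact cd_ne i x hx
  · fun_prop

lemma J_closed (i : Fin 4) : IsClosed (ex.J i ×ˢ (univ : Set ℝ)) :=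
  isClosed_Icc.prod isClosed_univ

lemma image_compact {E : Set (ℝ × ℝ)} (h : IsCompact E) : IsCompact (ex.image E) := by
  refine isCompact_iUnion fun i => ?_
  refine (h.inter_right (J_closed i)).image_of_continuousOn ?_
  exact (TT_continuousOn i).mono inter_subset_right

/-- the attractor -/
def K : Set (ℝ × ℝ) := ⋂ n : ℕ, ex.image^[n] R

lemma iter_anti : Antitone (fun n : ℕ => ex.image^[n] R) := by
  refine antitone_nat_of_succ_le fun n => ?_
  induction n with
  | zero => exact R_invariant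
  | succ n ih =>
    have e1 : ex.image^[n + 1 + 1] R = ex.image (ex.image^[n + 1] R) :=
      Function.iterate_succ_apply' _ _ _
    have e2 : ex.image^[n + 1] R = ex.image (ex.image^[n] R) :=
      Function.iterate_succ_apply' _ _ _
    change ex.image^[n + 1 + 1] R ≤ ex.image^[n + 1] R
    rw [e1]
    nth_rewrite 2 [e2]
    exact image_mono ih

lemma iter_compact (n : ℕ) : IsCompact (ex.image^[n] R) := by
  induction n with
  | zero => exact R_compact
  | succ n ih =>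
    rw [Function.iterate_succ_apply']
    exact image_compact ih

lemma K_sub_R : K ⊆ R := iInter_subset (fun n : ℕ => ex.image^[n] R) 0

lemma K_compact : IsCompact K :=
  R_compact.of_isClosed_subset (isClosed_iInter fun n => (iter_compact n).isClosed) K_sub_R

lemma K0_sub_K : K0 ⊆ K := by
  refine subset_iInter fun n => ?_
  induction n with
  | zero => exact K0_R
  | succ n ih =>
    rw [Function.iterate_succ_apply']
    exact K0_sub.trans (image_mono ih)

lemma image_K : ex.image K = K := by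
  apply Subset.antisymm
  · refine subset_iInter fun n => ?_
    have h1 : ex.image K ⊆ ex.image (ex.image^[n] R) :=
      image_mono (iInter_subset (fun n : ℕ => ex.image^[n] R) n)
    have e2 : ex.image^[n + 1] R = ex.image (ex.image^[n] R) :=
      Function.iterate_succ_apply' _ _ _
    rw [← e2] at h1
    exact h1.trans (iter_anti (Nat.le_succ n))
  · intro p hp
    have h1 : ∀ n, ∃ i, ∃ q ∈ ex.image^[n] R, q.1 ∈ ex.J i ∧ ex.TT i q = p := by
      intro n
      have := mem_iInter.1 hp (n + 1)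
      rw [Function.iterate_succ_apply', image_iff] at this
      exact this
    have h2 : ∃ i, ∀ n, ∃ q ∈ ex.image^[n] R, q.1 ∈ ex.J i ∧ ex.TT i q = p := by
      by_contra hcon
      push Not at hcon
      choose m hm using hcon
      obtain ⟨i, q, hq, hqJ, hqp⟩ := h1 (Finset.univ.sup m)
      exact hm i q (iter_anti (Finset.le_sup (Finset.mem_univ i)) hq) hqJ hqp
    obtain ⟨i, hi⟩ := h2
    obtain ⟨q, hq, hqJ, hqp⟩ := hi 0
    rw [image_iff]
    refine ⟨i, q, mem_iInter.2 fun n => ?_, hqJ, hqp⟩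
    obtain ⟨q', hq', hqJ', hqp'⟩ := hi n
    have : q' = q := TT_injOn i hqJ' hqJ (hqp'.trans hqp.symm)
    exact this ▸ hq'

lemma K0_proj {x : ℝ} (h : x ∈ ex.I) : ∃ y : ℝ, (x, y) ∈ K0 ∧ |y| ≤ 1 := by
  obtain ⟨h1, h2⟩ : -1 ≤ x ∧ x ≤ 1 := h
  rcases le_total 0 x with h | h
  · have g : 0 < x + 3 := by linarith
    refine ⟨1 / (x + 3), Or.inl ⟨⟨h, h2⟩, ?_, ?_⟩, ?_⟩
    · simp only
      rw [one_div, inv_mul_cancel₀ g.ne']
    · simp only
      rw [one_div, inv_mul_le_iff₀ g]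
      linarith
    · rw [abs_of_pos (by positivity), div_le_iff₀ g]
      linarith
  · have g : 0 < -x + 3 := by linarith
    refine ⟨-(1 / (-x + 3)), Or.inr ⟨⟨h1, h⟩, ?_, ?_⟩, ?_⟩
    · simp only
      rw [neg_neg, one_div, inv_mul_cancel₀ g.ne']
    · simp only
      rw [neg_neg, one_div, inv_mul_le_iff₀ g]
      linarith
    · rw [abs_neg, abs_of_pos (by positivity), div_le_iff₀ g]
      linarith

lemma R_sub : R ⊆ ex.I ×ˢ univ := by
  rintro ⟨x, y⟩ h
  rw [mem_R] at h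
  refine ⟨?_, mem_univ _⟩
  rw [exI]
  rcases h with ⟨⟨h1, h2⟩, -⟩ | ⟨⟨h1, h2⟩, -⟩
  · exact ⟨by simp only; linarith, h2⟩
  · exact ⟨h1, by simp only; linarith⟩

lemma K_attractor : ex.IsAttractor K where
  compact := K_compact
  sub := K_sub_R.trans R_sub
  proj := by
    apply Subset.antisymm
    · rintro _ ⟨p, hp, rfl⟩
      exact (R_sub (K_sub_R hp)).1
    · intro x hx
      obtain ⟨y, hy, -⟩ := K0_proj hx
      exact ⟨(x, y), K0_sub_K hy, rfl⟩
  eq := by rw [image_K, K_compact.isClosed.closure_eq]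

lemma attractor_image {K' : Set (ℝ × ℝ)} (h : ex.IsAttractor K') : ex.image K' = K' := by
  have h1 := h.eq
  rw [(image_compact h.compact).isClosed.closure_eq] at h1
  exact h1.symm

lemma attractor_le {E F : Set (ℝ × ℝ)} (hE : ex.IsAttractor E) (hF : ex.IsAttractor F) :
    E ⊆ F := by
  obtain ⟨C1, hC1⟩ := (hE.compact.image continuous_snd).isBounded.exists_norm_le
  obtain ⟨C2, hC2⟩ := (hF.compact.image continuous_snd).isBounded.exists_norm_le
  refine comparison (C := max C1 C2) (attractor_image hE).ge (fun p hp => (hE.sub hp).1) ?_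
    hF.compact.isClosed (attractor_image hF).le ?_
  · intro p hp
    exact (hC1 p.2 (mem_image_of_mem _ hp)).trans (le_max_left _ _)
  · intro x hx
    rw [← hF.proj] at hx
    obtain ⟨⟨x', y⟩, hp, rfl⟩ := hx
    exact ⟨y, hp, (hC2 y ⟨(x', y), hp, rfl⟩).trans (le_max_right _ _)⟩

lemma K_volume : 0 < volume K := by
  have h1 : Ioo (0 : ℝ) (1 / 5) ×ˢ Ioo (34 / 100 : ℝ) (45 / 100) ⊆ K := by
    refine Subset.trans ?_ K0_sub_K
    rintro ⟨x, y⟩ ⟨⟨h1, h2⟩, h3, h4⟩
    simp only at h1 h2 h3 h4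
    left
    refine ⟨⟨h1.le, by simp only; linarith⟩, ?_, ?_⟩
    · simp only; nlinarith
    · simp only; nlinarith
  refine lt_of_lt_of_le ?_ (measure_mono h1)
  exact (isOpen_Ioo.prod isOpen_Ioo).measure_pos _
    ⟨(1 / 10, 4 / 10), ⟨⟨by norm_num, by norm_num⟩, ⟨by norm_num, by norm_num⟩⟩⟩

lemma K_disconnected : ¬ IsConnected K := by
  intro h
  have h1 : (Prod.snd '' K).OrdConnected :=
    (h.isPreconnected.image _ continuous_snd.continuousOn).ordConnected
  have h2 : (1 / 3 : ℝ) ∈ Prod.snd '' K :=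
    ⟨(0, 1 / 3), K0_sub_K (Or.inl ⟨⟨le_rfl, by norm_num⟩, by norm_num, by norm_num⟩), rfl⟩
  have h3 : (-1 / 3 : ℝ) ∈ Prod.snd '' K :=
    ⟨(0, -1 / 3), K0_sub_K (Or.inr ⟨⟨by norm_num, le_rfl⟩, by norm_num, by norm_num⟩), rfl⟩
  have h4 : (0 : ℝ) ∈ Prod.snd '' K := h1.out h3 h2 ⟨by norm_num, by norm_num⟩
  obtain ⟨⟨x, y⟩, hp, hy⟩ := h4
  have h5 := K_sub_R hp
  rw [mem_R] at h5
  simp only at hy
  subst hy
  rcases h5 with ⟨-, h6, -⟩ | ⟨-, -, h6⟩
  · norm_num at h6
  · norm_num at h6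

/-- **MP_68eddd_an, Q1: no.** For the map with the four increasing branches `(4x-2)/(3x+2)` on
`[0,1/2]`, `(6x-3)/(4-x)` on `[1/2,1]`, `(4x+2)/(2-3x)` on `[-1/2,0]` and `(6x+3)/(x+4)` on
`[-1,-1/2]`, which satisfies every condition of the problem, the unique compact set `K` has
positive measure and `m(K \ T~(K)) = 0`, but `K` is not connected. Each of the two halves
`[-1,0]` and `[0,1]` is mapped onto both halves. -/
theorem result :
    ex.IsAdmissible ∧
    (ex.T 0 '' Icc 0 (1 / 2) = Icc (-1) 0 ∧ ex.T 1 '' Icc (1 / 2) 1 = Icc 0 1 ∧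
      ex.T 2 '' Icc (-1 / 2) 0 = Icc 0 1 ∧ ex.T 3 '' Icc (-1) (-1 / 2) = Icc (-1) 0) ∧
    ∃ K : Set (ℝ × ℝ), ex.IsAttractor K ∧ (∀ K', ex.IsAttractor K' → K' = K) ∧
      0 < volume K ∧ volume (K \ ex.image K) = 0 ∧ ¬ IsConnected K := by
  refine ⟨ex_admissible, ⟨im0, im1, im2, im3⟩, K, K_attractor, ?_, K_volume, ?_, K_disconnected⟩
  · intro K' hK'
    exact (attractor_le hK' K_attractor).antisymm (attractor_le K_attractor hK')
  · rw [image_K, Set.sdiff_self]
    exact measure_empty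

end Pool.Agent.Results.MP_68eddd_an.Disconnected
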